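import Pool.Agent.W203.WS.Stm2

set_option autoImplicit false

open Finset

namespace Pool.Agent.W118.WT

open Pool.Agent.W203.WS

theorem half_pow (k a : ℕ) (hk : 1 ≤ k) :
    ((2 * k * a : ℕ) : ℝ) ^ k ≤ 2 * (((2 * k * a : ℕ) : ℝ) - a) ^ k := by
  have hk0 : (0 : ℝ) < k := by exact_mod_cast hk
  have h1 : (1 : ℝ) + (k : ℝ) * (-(1 / (2 * k))) ≤ (1 + (-(1 / (2 * (k : ℝ))))) ^ k := by
    apply one_add_mul_le_pow
    have : (1 : ℝ) / (2 * k) ≤ 1 := by
      rw [div_le_one (by positivity)]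
      have : (1 : ℝ) ≤ k := by exact_mod_cast hk
      linarith
    linarith
  have h2 : (1 : ℝ) + (k : ℝ) * (-(1 / (2 * k))) = 1 / 2 := by
    field_simp; ring
  rw [h2] at h1
  have h3 : (((2 * k * a : ℕ) : ℝ) - a) = ((2 * k * a : ℕ) : ℝ) * (1 + (-(1 / (2 * (k : ℝ))))) := by
    push_cast
    field_simp
    ring
  rw [h3, mul_pow]
  have h4 : (0 : ℝ) ≤ ((2 * k * a : ℕ) : ℝ) ^ k := by positivity
  nlinarith

theorem t_LOW : S_LOW := by
  intro k s hk hs θ N₀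
  by_contra hcon
  push Not at hcon
  choose! x hx hsum using hcon
  obtain ⟨a, ha1, ha2⟩ : ∃ a : ℕ, 1 ≤ a ∧ (k : ℤ) + N₀ < (a : ℤ) ^ 2 := by
    refine ⟨k + N₀.toNat + 1, by omega, ?_⟩
    have h1 : N₀ ≤ (N₀.toNat : ℤ) := Int.self_le_toNat N₀
    have h2 : ((k + N₀.toNat + 1 : ℕ) : ℤ) = k + (N₀.toNat : ℤ) + 1 := by push_cast; ring
    rw [h2]
    have h3 : (0 : ℤ) ≤ (k : ℤ) := by positivity
    have h4 : (0 : ℤ) ≤ (N₀.toNat : ℤ) := by positivity
    nlinarith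
  obtain ⟨M, hM⟩ : ∃ M : ℕ, M = 2 * k * a := ⟨_, rfl⟩
  have hMa : 2 * a ≤ M := by
    rw [hM]; nlinarith
  have hM1 : 1 ≤ M := by omega
  have hpow := half_pow k a (by omega)
  rw [← hM] at hpow
  -- the representations
  have hlt : ∀ N, N₀ ≤ N → N ≤ (M : ℤ) ^ k - k → ∀ i : Fin s,
      ∑ j, ((x N j : ℝ) + θ j) ^ k < (M : ℝ) ^ k := by
    intro N h0 h1 i
    have h2 : ∑ j, ((x N j : ℝ) + θ j) ^ k <
        ∑ j, (((⌊((x N j : ℝ) + θ j) ^ k⌋ : ℤ) : ℝ) + 1) := by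
      apply Finset.sum_lt_sum_of_nonempty ⟨i, Finset.mem_univ i⟩
      intro j _
      exact Int.lt_floor_add_one _
    rw [Finset.sum_add_distrib] at h2
    have h3 : ∑ j, (((⌊((x N j : ℝ) + θ j) ^ k⌋ : ℤ) : ℝ)) = (N : ℝ) := by
      have := hsum N h0
      exact_mod_cast this
    rw [h3] at h2
    have h4 : (N : ℝ) ≤ (M : ℝ) ^ k - k := by exact_mod_cast h1
    have h5 : (s : ℝ) ≤ k := by exact_mod_cast hs
    simp only [Finset.sum_const, Finset.card_univ, Fintype.card_fin, nsmul_eq_mul, mul_one] at h2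
    linarith
  have hle : ∀ N, N₀ ≤ N → N ≤ (M : ℤ) ^ k - k → ∀ i : Fin s,
      (x N i : ℝ) + θ i < M := by
    intro N h0 h1 i
    have h2 := hlt N h0 h1 i
    have h3 : ((x N i : ℝ) + θ i) ^ k ≤ ∑ j, ((x N j : ℝ) + θ j) ^ k :=
      Finset.single_le_sum (f := fun j => ((x N j : ℝ) + θ j) ^ k)
        (fun j _ => pow_nonneg (hx N h0 j) k) (Finset.mem_univ i)
    exact lt_of_pow_lt_pow_left₀ k (by positivity) (lt_of_le_of_lt h3 h2)
  have htwo : ∀ N, N₀ ≤ N → N ≤ (M : ℤ) ^ k - k → ∀ i j : Fin s, i ≠ j →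
      (M : ℝ) - a ≤ (x N i : ℝ) + θ i → (M : ℝ) - a ≤ (x N j : ℝ) + θ j → False := by
    intro N h0 h1 i j hij hi hj
    have h2 := hlt N h0 h1 i
    have hMa' : (0 : ℝ) ≤ (M : ℝ) - a := by
      have : (a : ℝ) ≤ M := by exact_mod_cast (by omega : a ≤ M)
      linarith
    have h3 : ((x N i : ℝ) + θ i) ^ k + ((x N j : ℝ) + θ j) ^ k ≤
        ∑ l, ((x N l : ℝ) + θ l) ^ k := by
      rw [← Finset.sum_pair hij (f := fun l => ((x N l : ℝ) + θ l) ^ k)]
      exact Finset.sum_le_sum_of_subset_of_nonneg (Finset.subset_univ _)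
        (fun l _ _ => pow_nonneg (hx N h0 l) k)
    have h4 : ((M : ℝ) - a) ^ k ≤ ((x N i : ℝ) + θ i) ^ k := pow_le_pow_left₀ hMa' hi k
    have h5 : ((M : ℝ) - a) ^ k ≤ ((x N j : ℝ) + θ j) ^ k := pow_le_pow_left₀ hMa' hj k
    linarith
  let g : ℤ → (Fin s → ℤ) := fun N i => x N i - ⌈-θ i⌉
  have hg0 : ∀ N, N₀ ≤ N → ∀ i, 0 ≤ g N i := by
    intro N h0 i
    have h1 := hx N h0 i
    have h2 : ⌈-θ i⌉ ≤ x N i := Int.ceil_le.2 (by linarith)
    show 0 ≤ x N i - ⌈-θ i⌉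
    omega
  have hgM : ∀ N, N₀ ≤ N → N ≤ (M : ℤ) ^ k - k → ∀ i, g N i < M := by
    intro N h0 h1 i
    have h2 := hle N h0 h1 i
    have h3 : x N i - (M : ℤ) < ⌈-θ i⌉ := Int.lt_ceil.2 (by push_cast; linarith)
    show x N i - ⌈-θ i⌉ < M
    omega
  have hga : ∀ N, ∀ i, (M : ℤ) - a ≤ g N i → (M : ℝ) - a ≤ (x N i : ℝ) + θ i := by
    intro N i h
    have h1 : -θ i ≤ (⌈-θ i⌉ : ℝ) := Int.le_ceil _
    have h2 : ((M : ℤ) : ℝ) - a ≤ ((x N i - ⌈-θ i⌉ : ℤ) : ℝ) := by exact_mod_cast h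
    push_cast at h2
    linarith
  let I : Finset ℤ := Finset.Icc N₀ ((M : ℤ) ^ k - k)
  have hinj : Set.InjOn g (I : Set ℤ) := by
    intro N hN N' hN' h
    rw [Finset.mem_coe, Finset.mem_Icc] at hN hN'
    have h1 : x N = x N' := by
      funext i
      have := congrFun h i
      simp only [g] at this
      omega
    rw [← hsum N hN.1, ← hsum N' hN'.1, h1]
  have hcard : (I.card : ℤ) = ((M : ℤ) ^ k - k + 1 - N₀).toNat := by
    simp [I, Int.card_Icc]
  have hcard2 : (M : ℤ) ^ k - k + 1 - N₀ ≤ (I.card : ℤ) := by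
    rw [hcard]; exact Int.self_le_toNat _
  let F : Finset (Fin s → ℤ) := Fintype.piFinset (fun _ => Finset.Ico (0 : ℤ) M)
  have hFc : F.card = M ^ s := by
    simp [F, Fintype.card_piFinset]
  have hmap : ∀ N ∈ I, g N ∈ F := by
    intro N hN
    rw [Finset.mem_Icc] at hN
    rw [Fintype.mem_piFinset]
    intro i
    rw [Finset.mem_Ico]
    exact ⟨hg0 N hN.1 i, hgM N hN.1 hN.2 i⟩
  rcases Nat.lt_or_ge s k with hsk | hsk
  · have h1 : I.card ≤ M ^ s := by
      rw [← hFc]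
      exact Finset.card_le_card_of_injOn g hmap hinj
    have h2 : M ^ s ≤ M ^ (k - 1) := Nat.pow_le_pow_right hM1 (by omega)
    have h3 : (M : ℤ) ^ k = (M : ℤ) ^ (k - 1) * M := by
      rw [← pow_succ]; congr 1; omega
    have h4 : (I.card : ℤ) ≤ (M : ℤ) ^ (k - 1) := by exact_mod_cast h1.trans h2
    have h5 : (M : ℤ) ≤ (M : ℤ) ^ (k - 1) := by
      have : M ^ 1 ≤ M ^ (k - 1) := Nat.pow_le_pow_right hM1 (by omega)
      rw [pow_one] at this
      exact_mod_cast this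
    have h6 : (2 : ℤ) * a ≤ M := by exact_mod_cast hMa
    have h7 : (1 : ℤ) ≤ a := by exact_mod_cast ha1
    have h8 : (M : ℤ) * (M - 1) ≤ (M : ℤ) ^ (k - 1) * (M - 1) :=
      mul_le_mul_of_nonneg_right h5 (by linarith)
    nlinarith
  · have hsk' : s = k := le_antisymm hs hsk
    obtain ⟨n, hn⟩ : ∃ n, s = n + 2 := ⟨s - 2, by omega⟩
    subst hn
    let B : Finset (Fin (n + 2) → ℤ) :=
      Fintype.piFinset (fun i : Fin (n + 2) => if i = 0 ∨ i = 1 then Finset.Ico ((M : ℤ) - a) M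
        else Finset.Ico (0 : ℤ) M)
    have hBF : B ⊆ F := by
      intro z hz
      rw [Fintype.mem_piFinset] at hz ⊢
      intro i
      have h1 := hz i
      split_ifs at h1 with h2
      · rw [Finset.mem_Ico] at h1 ⊢
        have : (a : ℤ) ≤ M := by exact_mod_cast (by omega : a ≤ M)
        exact ⟨by linarith [h1.1], h1.2⟩
      · exact h1
    have hBc : B.card = a * (a * M ^ n) := by
      have e1 : ∀ i : Fin n, ¬ ((i.succ.succ : Fin (n + 2)) = 0 ∨ (i.succ.succ : Fin (n + 2)) = 1) := by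
        intro i h
        rcases h with h | h
        · exact Fin.succ_ne_zero _ h
        · have : (i.succ : Fin (n + 1)) = 0 := by
            have h' : (i.succ.succ : Fin (n + 2)) = Fin.succ 0 := h
            exact Fin.succ_injective _ h'
          exact Fin.succ_ne_zero _ this
      simp only [B, Fintype.card_piFinset]
      rw [Fin.prod_univ_succ, Fin.prod_univ_succ]
      have e2 : ((Fin.succ 0 : Fin (n + 2)) = 0 ∨ (Fin.succ 0 : Fin (n + 2)) = 1) := Or.inr rfl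
      rw [if_pos (Or.inl rfl), if_pos e2]
      have e3 : ∀ i : Fin n, (if (i.succ.succ : Fin (n + 2)) = 0 ∨ (i.succ.succ : Fin (n + 2)) = 1
          then Finset.Ico ((M : ℤ) - a) M else Finset.Ico (0 : ℤ) M).card = M := by
        intro i
        rw [if_neg (e1 i)]
        simp
      simp only [e3]
      simp
    have hmap2 : ∀ N ∈ I, g N ∈ F \ B := by
      intro N hN
      rw [Finset.mem_sdiff]
      refine ⟨hmap N hN, ?_⟩
      intro hB
      rw [Fintype.mem_piFinset] at hB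
      have h0 := hB 0
      have h1 := hB 1
      rw [if_pos (Or.inl rfl), Finset.mem_Ico] at h0
      rw [if_pos (Or.inr rfl), Finset.mem_Ico] at h1
      rw [Finset.mem_Icc] at hN
      exact htwo N hN.1 hN.2 0 1 (by simp) (hga N 0 h0.1) (hga N 1 h1.1)
    have h1 : I.card ≤ (F \ B).card := Finset.card_le_card_of_injOn g hmap2 hinj
    rw [Finset.card_sdiff_of_subset hBF, hFc, hBc] at h1
    have h2 : a * (a * M ^ n) ≤ M ^ (n + 2) := by
      rw [← hFc, ← hBc]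
      exact Finset.card_le_card hBF
    have h3 : (I.card : ℤ) ≤ (M : ℤ) ^ (n + 2) - a * (a * (M : ℤ) ^ n) := by
      have h4 : ((M ^ (n + 2) - a * (a * M ^ n) : ℕ) : ℤ) =
          (M : ℤ) ^ (n + 2) - a * (a * (M : ℤ) ^ n) := by
        rw [Nat.cast_sub h2]; push_cast; ring
      rw [← h4]; exact_mod_cast h1
    have h5 : (1 : ℤ) ≤ (M : ℤ) ^ n := by
      have : 1 ≤ M ^ n := Nat.one_le_pow _ _ hM1
      exact_mod_cast this
    have h6 : (a : ℤ) * a ≤ a * (a * (M : ℤ) ^ n) := by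
      have h7 : (0 : ℤ) ≤ (a : ℤ) * a := by positivity
      nlinarith
    rw [← hsk'] at hcard2
    rw [← hsk'] at ha2
    push_cast at hcard2 ha2
    nlinarith

end Pool.Agent.W118.WT
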